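import Mathlib
import Pool.Agent.Helper43.SeriesGap

set_option autoImplicit false
open MeasureTheory Set
open scoped ENNReal

namespace Pool.Agent.Results.MP_27276c_an.IntegralConstantNotSharp

/-- For all `p, q > 1` with `1/p + 1/q > 1` the constant `K(p,q)` is NOT best possible in the
integral inequality (I): a strictly smaller constant `C` also works. -/
theorem result :
    ∀ p q : ℝ, 1 < p → 1 < q → 1 < 1 / p + 1 / q →
      ∃ C : ℝ, 0 < C ∧
        C < Real.pi ^ (2 - 1 / p - 1 / q) *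
          (1 / Real.sin (Real.pi * (q - 1) / ((2 - 1 / p - 1 / q) * q))) ^ (2 - 1 / p - 1 / q) ∧
        ∀ f g : ℝ → ℝ≥0∞, Measurable f → Measurable g →
          ∫⁻ x in Ioi (0 : ℝ), ∫⁻ y in Ioi (0 : ℝ),
              f x * g y * ENNReal.ofReal ((x + y) ^ (-(2 - 1 / p - 1 / q))) ≤
            ENNReal.ofReal C * (∫⁻ x in Ioi (0 : ℝ), f x ^ p) ^ (1 / p) *
              (∫⁻ y in Ioi (0 : ℝ), g y ^ q) ^ (1 / q) := by
  intro p q hp hq hpq
  have h : Pool.Agent.Helper43.Hilbert.Params p q := ⟨hp, hq, hpq⟩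
  obtain ⟨C, hC0, hC1, hC⟩ := Pool.Agent.Helper43.Hilbert.integral_gap h
  refine ⟨C, hC0, ?_, hC⟩
  rw [Pool.Agent.Helper43.Hilbert.K_eq h]
  exact hC1

end Pool.Agent.Results.MP_27276c_an.IntegralConstantNotSharp
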