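import Mathlib
import Pool.Agent.Helper43.SeriesGap

set_option autoImplicit false
open scoped ENNReal NNReal

namespace Pool.Agent.Results.MP_27276c_an.SeriesConstantNotSharp

/-- For all `p, q > 1` with `1/p + 1/q > 1` the constant `K(p,q)` is NOT best possible in the
series inequality (S): a strictly smaller constant `C` also works. -/
theorem result :
    ∀ p q : ℝ, 1 < p → 1 < q → 1 < 1 / p + 1 / q →
      ∃ C : ℝ, 0 < C ∧
        C < Real.pi ^ (2 - 1 / p - 1 / q) *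
          (1 / Real.sin (Real.pi * (q - 1) / ((2 - 1 / p - 1 / q) * q))) ^ (2 - 1 / p - 1 / q) ∧
        ∀ a b : ℕ+ → ℝ≥0,
          ∑' m : ℕ+, ∑' n : ℕ+, (a m : ℝ≥0∞) * (b n : ℝ≥0∞) *
              ENNReal.ofReal (((m : ℝ) + (n : ℝ)) ^ (-(2 - 1 / p - 1 / q))) ≤
            ENNReal.ofReal C * (∑' m : ℕ+, (a m : ℝ≥0∞) ^ p) ^ (1 / p) *
              (∑' n : ℕ+, (b n : ℝ≥0∞) ^ q) ^ (1 / q) := by
  intro p q hp hq hpq
  have h : Pool.Agent.Helper43.Hilbert.Params p q := ⟨hp, hq, hpq⟩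
  obtain ⟨C, hC0, hC1, hC⟩ := Pool.Agent.Helper43.Hilbert.series_gap h
  refine ⟨C, hC0, ?_, ?_⟩
  · rw [Pool.Agent.Helper43.Hilbert.K_eq h]
    exact hC1
  · intro a b
    have key := hC (fun m => (a (Equiv.pnatEquivNat.symm m) : ℝ≥0∞))
      (fun n => (b (Equiv.pnatEquivNat.symm n) : ℝ≥0∞))
    have e1 : ∑' m : ℕ+, (a m : ℝ≥0∞) ^ p =
        ∑' m : ℕ, (a (Equiv.pnatEquivNat.symm m) : ℝ≥0∞) ^ p :=
      (Equiv.tsum_eq Equiv.pnatEquivNat.symm (fun m : ℕ+ => (a m : ℝ≥0∞) ^ p)).symm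
    have e2 : ∑' m : ℕ+, (b m : ℝ≥0∞) ^ q =
        ∑' m : ℕ, (b (Equiv.pnatEquivNat.symm m) : ℝ≥0∞) ^ q :=
      (Equiv.tsum_eq Equiv.pnatEquivNat.symm (fun m : ℕ+ => (b m : ℝ≥0∞) ^ q)).symm
    rw [e1, e2]
    refine le_trans (le_of_eq ?_) key
    rw [← Equiv.tsum_eq Equiv.pnatEquivNat.symm]
    refine tsum_congr fun m => ?_
    rw [← Equiv.tsum_eq Equiv.pnatEquivNat.symm]
    refine tsum_congr fun n => ?_
    have hm : ((Equiv.pnatEquivNat.symm m : ℕ+) : ℝ) = ((m + 1 : ℕ) : ℝ) := by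
      simp [Equiv.pnatEquivNat]
    have hn : ((Equiv.pnatEquivNat.symm n : ℕ+) : ℝ) = ((n + 1 : ℕ) : ℝ) := by
      simp [Equiv.pnatEquivNat]
    rw [hm, hn]
    rfl

end Pool.Agent.Results.MP_27276c_an.SeriesConstantNotSharp
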